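import Mathlib
import Pool.Agent.H395.Cyc.Stm
import Pool.Graph.R_seed8.TH117.BL.Main

/-!
# The Tate conjecture for products of abelian varieties of dimension at most six with multiplication
by one imaginary quadratic field: definitions
-/

set_option autoImplicit false

namespace Pool.Agent.H395.Tate

open NumberField Module Pool.Agent.W495.TA Pool.Agent.W547.KB Pool.Agent.H395.Cyc
  Pool.Agent.TH117.BL

noncomputable section

variable {p : ℕ} [Fact p.Prime] {ν : PadicAlgCl p ≃+* ℂ}

/-- The Frobenius endomorphisms of the factors, as Weil numbers in the CM fields of the factors. -/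
def frobNum (Z : RedAV p ν) (i : Z.X.I) : WeilNum p Z.a where
  E := (Z.X.factor i).E
  num := Z.π i
  integral := (Z.frob i).integral
  weil := by
    obtain ⟨φ⟩ : Nonempty ((Z.X.factor i).E →+* ℂ) := inferInstance
    apply φ.injective
    rw [map_mul, IsCMField.complexEmbedding_complexConj, Complex.mul_conj', map_pow, map_natCast]
    exact_mod_cast (Z.frob i).weil φ

open Classical in
/-- The signature defect: the number of the embeddings over the imaginary quadratic field `k` in the
CM type minus the number of those outside of the CM type. -/
def defect (Q : ImagQuad) (A : CMPair) (θ : FHom Q.k A.E) : ℤ :=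
  ∑ φ : A.E →+* ℂ, if Q.Over θ φ then (if φ ∈ A.Φ then 1 else -1) else 0

/-- The abelian variety `Z` is a product of factors with CM fields `F i` and CM types, with the
Frobenius endomorphism `(π i)`; the fields `F i` contain the imaginary quadratic field `k`, and the
multiplicative relations between the Frobenius eigenvalues are, up to trivial ones, constant over `k`
(`QuadShape`); and

* `p` splits in `k` (the two embeddings of `k` define different `p`-adic places), the factors have
  dimension at most six and signatures `(n, n)`, `(n, n + 1)` or `(n + 1, n)`, and one of them is an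
  elliptic curve; or
* `p` does not split in `k`, and the factors have dimension at most five. -/
structure SmallOver (Q : ImagQuad) (Z : RedAV p ν) (θ : ∀ i, FHom Q.k (Z.X.factor i).E) : Prop where
  shape : QuadShape Q Set.univ (frobNum Z) (fun i _ => θ i)
  small : (¬ SamePlace p ν Q.κ (ComplexEmbedding.conjugate Q.κ) ∧
      (∀ i, finrank ℚ (Z.X.factor i).E ≤ 12 ∧ |defect Q (Z.X.factor i) (θ i)| ≤ 1) ∧
      ∃ i, finrank ℚ (Z.X.factor i).E = 2) ∨
    (SamePlace p ν Q.κ (ComplexEmbedding.conjugate Q.κ) ∧
      ∀ i, finrank ℚ (Z.X.factor i).E ≤ 10)

/-- All Tate classes on all abelian varieties `Y` which are isogenous, over an algebraic closure, to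
products of powers of the factors of `Z` and of supersingular abelian varieties, belong to the
smallest system `Alg` of cohomology classes which contains the classes of degree zero, the Tate
classes of degree two and the reductions of the split Weil classes of imaginary quadratic fields on
abelian fourfolds and sixfolds of CM type and is stable under linear combinations, cup products,
pull-backs along homomorphisms and push-forwards along projections. -/
def TateFor (Z : RedAV p ν) : Prop :=
  ∀ (Ω : Type) [Field Ω] [IsAlgClosed Ω] [CharZero Ω] (Y : RedAV p ν),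
    IsPowersTimesSupersingular Z Y → ∀ s m : ℕ, 0 < s →
      ∀ f : (TM Ω Y) [⋀^Fin (2 * m)]→ₗ[Ω] Ω, IsTateClass Ω Y s m f → Alg Ω Y (Fin (2 * m)) f

/-- All positive powers of `π i` generate the CM field `F i` (so that the factors are simple, over all
finite extensions); the degree of `F i` over `k` is a prime number, or the automorphisms of the complex
numbers over `k` act doubly transitively on the embeddings of `F i` over `k` (for instance, if there is
only one such embedding); and each CM field is linearly disjoint over `k` from the compositum of the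
Galois closures of the others: any two embeddings over `k` are conjugate by an automorphism over `k`
which fixes all embeddings of the other fields. -/
structure FieldTypes (Q : ImagQuad) (Z : RedAV p ν) (θ : ∀ i, FHom Q.k (Z.X.factor i).E) :
    Prop where
  powers : ∀ i, Generates (Z.π i)
  over_k : ∀ i, (∃ r : ℕ, r.Prime ∧ finrank ℚ (Z.X.factor i).E = 2 * r) ∨
    ∀ φ₁ φ₂ ψ₁ ψ₂ : Emb (Z.X.factor i).E, Q.Over (θ i) φ₁ → Q.Over (θ i) φ₂ → Q.Over (θ i) ψ₁ →
      Q.Over (θ i) ψ₂ → φ₁ ≠ φ₂ → ψ₁ ≠ ψ₂ → ∃ σ, Q.Fixes σ ∧ φ₁.mv σ = ψ₁ ∧ φ₂.mv σ = ψ₂
  disjoint : ∀ i (φ ψ : Emb (Z.X.factor i).E), Q.Over (θ i) φ → Q.Over (θ i) ψ → ∃ σ, Q.Fixes σ ∧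
    φ.mv σ = ψ ∧ ∀ j, j ≠ i → ∀ χ : Emb (Z.X.factor j).E, χ.mv σ = χ

end

end Pool.Agent.H395.Tate
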