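import Mathlib
import Pool.Agent.H395.Tate.Stm

/-!
# The sum of the functions of the embeddings over an imaginary quadratic field
-/

set_option autoImplicit false
set_option linter.unusedSectionVars false
set_option linter.unusedVariables false

namespace Pool.Agent.H395.Tate

open NumberField Module Pool.Agent.H204R3.CM Pool.Agent.W547.KB Pool.Agent.W547.LD
  Pool.Agent.W495.TA Pool.Agent.W495.TB Pool.Agent.W495.TC Pool.Agent.TH117.F5
  Pool.Agent.H395.Cyc Pool.Agent.TH117.BL

noncomputable section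

variable {p : ℕ} [Fact p.Prime] {ν : PadicAlgCl p ≃+* ℂ}
  {L : Type} [Field L] [NumberField L] [IsCMField L] [IsGalois ℚ L] {j : L →+* ℂ}

/-- The decomposition group fixes the embeddings of `k`, if `p` splits in `k`. -/
theorem dec_fixes {k : Type} [Field k] [NumberField k] [IsCMField k] (hk : finrank ℚ k = 2)
    {κ : k →+* L} (hsplit : ¬ SamePlace p ν (j.comp κ) (ComplexEmbedding.conjugate (j.comp κ)))
    {d : L ≃ₐ[ℚ] L} (hd : d ∈ Dec p ν j) : d • κ = κ := by
  rcases emb_quadratic hk (j.comp κ) (j.comp (d • κ)) with h | h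
  · exact cancel_j (j := j) h
  · exfalso
    obtain ⟨τ, hτ⟩ := hd
    refine hsplit ⟨τ, fun x => ?_⟩
    rw [← h]
    exact hτ (κ x)

/-- The sign of an automorphism on `k`. -/
def sgn {k : Type} [Field k] (κ : k →+* L) (τ : L ≃ₐ[ℚ] L) : ℤ :=
  open Classical in if τ • κ = κ then 1 else -1

theorem sgn_ne {k : Type} [Field k] (κ : k →+* L) (τ : L ≃ₐ[ℚ] L) : sgn κ τ ≠ 0 := by
  unfold sgn
  split_ifs <;> norm_num

/-- The signature defect, for the embeddings in `L`. -/
def defectL {k : Type} [Field k] (j : L →+* ℂ) (A : CMPair) (θ : k →+* A.E) (κ : k →+* L)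
    [Fintype (A.E →+* L)] : ℤ :=
  open Classical in ∑ φ : A.E →+* L, if φ.comp θ = κ then eps j A φ else 0

theorem defectL_cc {k : Type} [Field k] (A : CMPair) (θ : k →+* A.E) (κ : k →+* L)
    [Fintype (A.E →+* L)] : defectL j A θ (cc L • κ) = - defectL j A θ κ := by
  classical
  unfold defectL
  rw [← Finset.sum_neg_distrib, ← Equiv.sum_comp (MulAction.toPerm (cc L))]
  refine Finset.sum_congr rfl fun φ _ => ?_
  have h1 : ((MulAction.toPerm (cc L)) φ : A.E →+* L) = cc L • φ := rfl
  rw [h1, smul_comp, (isSign_eps j A).odd]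
  by_cases h : φ.comp θ = κ
  · rw [if_pos h, if_pos (by rw [h])]
  · rw [if_neg h, if_neg (fun h2 => h (MulAction.injective (cc L) h2)), neg_zero]

theorem defectL_smul {k : Type} [Field k] [NumberField k] [IsCMField k] (hk : finrank ℚ k = 2)
    (A : CMPair) (θ : k →+* A.E) (κ : k →+* L) [Fintype (A.E →+* L)] (τ : L ≃ₐ[ℚ] L) :
    defectL j A θ (τ • κ) = sgn κ τ * defectL j A θ κ := by
  classical
  unfold sgn
  split_ifs with h
  · rw [h, one_mul]
  · rcases emb_quadratic hk (j.comp κ) (j.comp (τ • κ)) with h1 | h1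
    · exact absurd (cancel_j (j := j) h1) h
    · rw [← Pool.Agent.TH117.BL.comp_cc] at h1
      rw [cancel_j (j := j) h1, defectL_cc, neg_one_mul]

/-- The sum of the functions of the embeddings over `k`. -/
theorem sum_over {k : Type} [Field k] [NumberField k] [IsCMField k] (hk : finrank ℚ k = 2)
    {κ : k →+* L} (hsplit : ¬ SamePlace p ν (j.comp κ) (ComplexEmbedding.conjugate (j.comp κ)))
    (A : CMPair) (θ : k →+* A.E) [Fintype (A.E →+* L)] (τ : L ≃ₐ[ℚ] L) :
    (open Classical in ∑ φ : A.E →+* L, if φ.comp θ = κ then nn p ν j A φ τ else 0) =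
      Nat.card (Dec p ν j) * (sgn κ τ * defectL j A θ κ) := by
  classical
  have h1 : ∀ d : L ≃ₐ[ℚ] L, d ∈ Dec p ν j →
      ∑ φ : A.E →+* L, (if φ.comp θ = κ then eps j A (d • τ • φ) else 0) =
        sgn κ τ * defectL j A θ κ := by
    intro d hd
    have h2 : d • τ • κ = τ • κ := by
      by_cases h : τ • κ = κ
      · rw [h]
        exact dec_fixes hk hsplit hd
      · rcases emb_quadratic hk (j.comp κ) (j.comp (τ • κ)) with h1 | h1
        · exact absurd (cancel_j (j := j) h1) h
        · rw [← Pool.Agent.TH117.BL.comp_cc] at h1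
          rw [cancel_j (j := j) h1]
          have h3 : d • (cc L • κ) = cc L • κ := by
            refine dec_fixes hk ?_ hd
            rw [Pool.Agent.TH117.BL.comp_cc]
            intro h4
            refine hsplit ?_
            obtain ⟨t, ht⟩ := h4
            refine ⟨t⁻¹, fun x => ?_⟩
            have h5 := ht x
            have h6 : (ComplexEmbedding.conjugate (ComplexEmbedding.conjugate (j.comp κ))) x =
                (j.comp κ) x := by simp
            rw [h6] at h5
            rw [h5, ν.symm_apply_apply]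
            change _ = ν (t.symm (t _))
            rw [t.symm_apply_apply, ν.apply_symm_apply]
          exact h3
    rw [← defectL_smul hk A θ κ τ, ← h2]
    unfold defectL
    have h9 := Equiv.sum_comp (MulAction.toPerm (d * τ) : Equiv.Perm (A.E →+* L))
      (fun ψ => if ψ.comp θ = d • τ • κ then eps j A ψ else 0)
    rw [← h9]
    refine Finset.sum_congr rfl fun φ _ => ?_
    have h3 : ((MulAction.toPerm (d * τ)) φ : A.E →+* L) = d • τ • φ := mul_smul d τ φ
    rw [h3, smul_comp, smul_comp]
    by_cases h : φ.comp θ = κ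
    · rw [if_pos h, if_pos (by rw [h])]
    · rw [if_neg h, if_neg (fun h4 => h (MulAction.injective τ (MulAction.injective d h4)))]
  have h2 : ∀ φ : A.E →+* L, (if φ.comp θ = κ then nn p ν j A φ τ else 0) =
      ∑ d : L ≃ₐ[ℚ] L, if d ∈ Dec p ν j then
        (if φ.comp θ = κ then eps j A (d • τ • φ) else 0) else 0 := by
    intro φ
    by_cases h : φ.comp θ = κ
    · rw [if_pos h]
      simp only [if_pos h]
      rfl
    · simp only [if_neg h, ite_self, Finset.sum_const_zero]
  rw [Finset.sum_congr rfl fun φ _ => h2 φ, Finset.sum_comm]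
  have h3 : ∀ d : L ≃ₐ[ℚ] L, ∑ φ : A.E →+* L, (if d ∈ Dec p ν j then
      (if φ.comp θ = κ then eps j A (d • τ • φ) else 0) else 0) =
      if d ∈ Dec p ν j then sgn κ τ * defectL j A θ κ else 0 := by
    intro d
    by_cases hd : d ∈ Dec p ν j
    · simp only [if_pos hd]
      exact h1 d hd
    · simp only [if_neg hd, Finset.sum_const_zero]
  rw [Finset.sum_congr rfl fun d _ => h3 d, ← Finset.sum_filter, Finset.sum_const, nsmul_eq_mul]
  congr 2
  rw [Nat.card_eq_fintype_card, Fintype.card_subtype]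

/-- If `p` does not split in `k`, the sum is zero. -/
theorem sum_over_nonsplit {k : Type} [Field k] [NumberField k] [IsCMField k]
    (hk : finrank ℚ k = 2) {κ : k →+* L}
    (hns : SamePlace p ν (j.comp κ) (ComplexEmbedding.conjugate (j.comp κ)))
    (A : CMPair) (θ : k →+* A.E) [Fintype (A.E →+* L)] (τ : L ≃ₐ[ℚ] L) :
    (open Classical in ∑ φ : A.E →+* L, if φ.comp θ = κ then nn p ν j A φ τ else 0) = 0 := by
  classical
  -- an element of the decomposition group which is not trivial on `k`
  obtain ⟨d₀, hd₀, hd⟩ : ∃ d₀ ∈ Dec p ν j, d₀ • κ = cc L • κ := by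
    obtain ⟨t, ht⟩ := hns
    let f : L →+* ℂ := ((ν : PadicAlgCl p →+* ℂ).comp
      ((t : PadicAlgCl p →+* PadicAlgCl p).comp (ν.symm : ℂ →+* PadicAlgCl p))).comp j
    obtain ⟨d, hd⟩ := exists_aut (j := j) f
    refine ⟨d, ⟨t, fun x => hd x⟩, ?_⟩
    apply cancel_j (j := j)
    rw [Pool.Agent.TH117.BL.comp_cc]
    ext x
    rw [ht x]
    exact hd (κ x)
  have hcc : ∀ g : L ≃ₐ[ℚ] L, d₀ • g • κ = cc L • g • κ := by
    intro g
    rcases emb_quadratic hk (j.comp κ) (j.comp (g • κ)) with h1 | h1
    · rw [cancel_j (j := j) h1]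
      exact hd
    · rw [← Pool.Agent.TH117.BL.comp_cc] at h1
      rw [cancel_j (j := j) h1]
      have h2 : cc L • cc L • κ = κ := by
        rw [← mul_smul, cc_cc, one_smul]
      have h3 : d₀ • cc L • κ = cc L • d₀ • κ := by
        rcases emb_quadratic hk (j.comp κ) (j.comp (d₀ • cc L • κ)) with h4 | h4
        · rw [cancel_j (j := j) h4, hd, h2]
        · rw [← Pool.Agent.TH117.BL.comp_cc] at h4
          have h5 : d₀ • cc L • κ = d₀ • κ := (cancel_j (j := j) h4).trans hd.symm
          have h6 : cc L • κ = κ := MulAction.injective d₀ h5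
          exact absurd (congrArg (fun l => j.comp l) h6) (by
            rw [Pool.Agent.TH117.BL.comp_cc]
            exact conj_ne _)
      rw [h3, hd]
  have h1 : ∀ d : L ≃ₐ[ℚ] L, ∑ φ : A.E →+* L, (if φ.comp θ = κ then eps j A (d • τ • φ) else 0) =
      defectL j A θ (d • τ • κ) := by
    intro d
    unfold defectL
    have h9 := Equiv.sum_comp (MulAction.toPerm (d * τ) : Equiv.Perm (A.E →+* L))
      (fun ψ => if ψ.comp θ = d • τ • κ then eps j A ψ else 0)
    rw [← h9]
    refine Finset.sum_congr rfl fun φ _ => ?_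
    have h3 : ((MulAction.toPerm (d * τ)) φ : A.E →+* L) = d • τ • φ := mul_smul d τ φ
    rw [h3, smul_comp, smul_comp]
    by_cases h : φ.comp θ = κ
    · rw [if_pos h, if_pos (by rw [h])]
    · rw [if_neg h, if_neg (fun h4 => h (MulAction.injective τ (MulAction.injective d h4)))]
  have h2 : ∑ φ : A.E →+* L, (if φ.comp θ = κ then nn p ν j A φ τ else 0) =
      ∑ d : L ≃ₐ[ℚ] L, if d ∈ Dec p ν j then defectL j A θ (d • τ • κ) else 0 := by
    have h3 : ∀ φ : A.E →+* L, (if φ.comp θ = κ then nn p ν j A φ τ else 0) =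
        ∑ d : L ≃ₐ[ℚ] L, if d ∈ Dec p ν j then
          (if φ.comp θ = κ then eps j A (d • τ • φ) else 0) else 0 := by
      intro φ
      by_cases h : φ.comp θ = κ
      · rw [if_pos h]
        simp only [if_pos h]
        rfl
      · simp only [if_neg h, ite_self, Finset.sum_const_zero]
    rw [Finset.sum_congr rfl fun φ _ => h3 φ, Finset.sum_comm]
    refine Finset.sum_congr rfl fun d _ => ?_
    by_cases hd' : d ∈ Dec p ν j
    · simp only [if_pos hd']
      exact h1 d
    · simp only [if_neg hd', Finset.sum_const_zero]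
  rw [h2]
  have h3 : ∑ d : L ≃ₐ[ℚ] L, (if d ∈ Dec p ν j then defectL j A θ (d • τ • κ) else 0) =
      - ∑ d : L ≃ₐ[ℚ] L, (if d ∈ Dec p ν j then defectL j A θ (d • τ • κ) else 0) := by
    conv_lhs => rw [← Equiv.sum_comp (Equiv.mulLeft d₀)]
    rw [← Finset.sum_neg_distrib]
    refine Finset.sum_congr rfl fun d _ => ?_
    have h4 : (Equiv.mulLeft d₀) d = d₀ * d := rfl
    rw [h4]
    by_cases hd' : d ∈ Dec p ν j
    · rw [if_pos hd', if_pos ((Dec p ν j).mul_mem hd₀ hd')]
      have h5 : (d₀ * d) • τ • κ = cc L • d • τ • κ := by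
        rw [mul_smul]
        have h6 := hcc (d * τ)
        rw [mul_smul] at h6
        exact h6
      rw [h5, defectL_cc]
    · rw [if_neg hd', if_neg (fun h5 => hd' (((Dec p ν j).mul_mem_cancel_left hd₀).1 h5)),
        neg_zero]
  linarith

end

end Pool.Agent.H395.Tate
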