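import Mathlib
import Pool.Agent.H395.Tate.Sum

/-!
# Numbers of embeddings over an imaginary quadratic field
-/

set_option autoImplicit false
set_option linter.unusedSectionVars false
set_option linter.unusedVariables false

namespace Pool.Agent.H395.Tate

open NumberField Module Pool.Agent.H204R3.CM Pool.Agent.W547.KB Pool.Agent.W547.LD
  Pool.Agent.W495.TA Pool.Agent.W495.TB Pool.Agent.W495.TC Pool.Agent.TH117.F5
  Pool.Agent.H395.Cyc Pool.Agent.TH117.BL

noncomputable section

variable {p : ℕ} [Fact p.Prime] {ν : PadicAlgCl p ≃+* ℂ}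
  {L : Type} [Field L] [NumberField L] [IsCMField L] [IsGalois ℚ L] {j : L →+* ℂ}

theorem surj_of_two {k : Type} [Field k] [NumberField k] (hk : finrank ℚ k = 2) {E : Type} [Field E]
    [NumberField E] (hE : finrank ℚ E = 2) (θ : k →+* E) : Function.Surjective θ := by
  let f : k →ₐ[ℚ] E := RingHom.toRatAlgHom θ
  have h1 : Function.Injective f.toLinearMap := f.toRingHom.injective
  exact (LinearMap.injective_iff_surjective_of_finrank_eq_finrank (by rw [hk, hE])).1 h1

theorem eq_of_two {k : Type} [Field k] [NumberField k] (hk : finrank ℚ k = 2) {E : Type} [Field E]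
    [NumberField E] (hE : finrank ℚ E = 2) (θ : k →+* E) {M : Type} [Field M] {φ ψ : E →+* M}
    (h : φ.comp θ = ψ.comp θ) : φ = ψ := by
  ext x
  obtain ⟨y, rfl⟩ := surj_of_two hk hE θ x
  exact RingHom.congr_fun h y

/-- The number of embeddings over `k`. -/
def cnt {k : Type} [Field k] {E : Type} [Field E] [NumberField E] (κ : k →+* ℂ) (θ : k →+* E) : ℕ :=
  open Classical in ∑ φ : E →+* ℂ, if φ.comp θ = κ then 1 else 0

theorem conj_comp {k : Type} [Field k] {E : Type} [Field E] (θ : k →+* E) (φ : E →+* ℂ) :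
    (ComplexEmbedding.conjugate φ).comp θ = ComplexEmbedding.conjugate (φ.comp θ) := rfl

theorem conj_conj {E : Type} [Field E] (φ : E →+* ℂ) :
    ComplexEmbedding.conjugate (ComplexEmbedding.conjugate φ) = φ := by
  ext x
  simp

/-- The complex conjugation of embeddings. -/
def conjPerm (E : Type) [Field E] : Equiv.Perm (E →+* ℂ) where
  toFun := ComplexEmbedding.conjugate
  invFun := ComplexEmbedding.conjugate
  left_inv := conj_conj
  right_inv := conj_conj

theorem not_over_iff {k : Type} [Field k] [NumberField k] [IsCMField k] (hk : finrank ℚ k = 2)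
    (κ : k →+* ℂ) {E : Type} [Field E] (θ : k →+* E) (φ : E →+* ℂ) :
    ¬ φ.comp θ = κ ↔ (ComplexEmbedding.conjugate φ).comp θ = κ := by
  rw [conj_comp]
  constructor
  · intro h
    rcases emb_quadratic hk κ (φ.comp θ) with h1 | h1
    · exact absurd h1 h
    · rw [h1, conj_conj]
  · intro h h1
    rw [h1] at h
    exact conj_ne κ h

theorem two_cnt {k : Type} [Field k] [NumberField k] [IsCMField k] (hk : finrank ℚ k = 2)
    (κ : k →+* ℂ) {E : Type} [Field E] [NumberField E] (θ : k →+* E) :
    2 * cnt κ θ = finrank ℚ E := by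
  classical
  have h1 : ∑ φ : E →+* ℂ, (if ¬ φ.comp θ = κ then 1 else 0) = cnt κ θ := by
    unfold cnt
    rw [← Equiv.sum_comp (conjPerm E)]
    refine Finset.sum_congr rfl fun φ _ => ?_
    have h2 : conjPerm E φ = ComplexEmbedding.conjugate φ := rfl
    rw [h2]
    by_cases h : φ.comp θ = κ
    · rw [if_pos h, if_pos (fun h3 => (not_over_iff hk κ θ φ).2 h3 h)]
    · have h3 := (not_over_iff hk κ θ φ).1 h
      rw [if_neg h, if_neg (fun h4 => h4 h3)]
  have h2 : ∑ φ : E →+* ℂ, (if φ.comp θ = κ then 1 else 0) +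
      ∑ φ : E →+* ℂ, (if ¬ φ.comp θ = κ then 1 else 0) = Fintype.card (E →+* ℂ) := by
    rw [← Finset.sum_add_distrib, Fintype.card_eq_sum_ones]
    refine Finset.sum_congr rfl fun φ _ => ?_
    by_cases h : φ.comp θ = κ
    · rw [if_pos h, if_neg (not_not.2 h)]
    · rw [if_neg h, if_pos h]
  rw [h1, Embeddings.card] at h2
  unfold cnt at h2 ⊢
  omega

/-- The signature defect and the number of embeddings have the same parity. -/
theorem defect_parity (Q : ImagQuad) (A : CMPair) (θ : FHom Q.k A.E) :
    ∃ m : ℤ, defect Q A θ = cnt Q.κ (show Q.k →+* A.E from θ) - 2 * m := by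
  classical
  refine ⟨∑ φ : A.E →+* ℂ, if Q.Over θ φ then (if φ ∈ A.Φ then 0 else 1) else 0, ?_⟩
  unfold defect cnt
  push_cast
  rw [Finset.mul_sum, ← Finset.sum_sub_distrib]
  refine Finset.sum_congr rfl fun φ _ => ?_
  by_cases h : Q.Over θ φ
  · have h' : φ.comp (show Q.k →+* A.E from θ) = Q.κ := h
    rw [if_pos h, if_pos h, if_pos h']
    split_ifs <;> norm_num
  · have h' : ¬ φ.comp (show Q.k →+* A.E from θ) = Q.κ := h
    rw [if_neg h, if_neg h, if_neg h']
    norm_num

theorem defectL_eq (Q : ImagQuad) (A : CMPair) (hA : BigA A j) (θ : FHom Q.k A.E)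
    {κ : Q.k →+* L} (hκ : j.comp κ = Q.κ) [Fintype (A.E →+* L)] :
    defectL j A (show Q.k →+* A.E from θ) κ = defect Q A θ := by
  classical
  have hbij : Function.Bijective (fun φ : A.E →+* L => j.comp φ) := by
    constructor
    · intro φ φ' h
      exact cancel_j (j := j) h
    · intro ψ
      exact hA ψ
  unfold defectL defect
  refine Fintype.sum_bijective _ hbij _ _ fun φ => ?_
  have h1 : Q.Over θ (j.comp φ) ↔ φ.comp (show Q.k →+* A.E from θ) = κ := by
    constructor
    · intro h
      apply cancel_j (j := j)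
      rw [hκ]
      exact h
    · intro h
      show (j.comp φ).comp (show Q.k →+* A.E from θ) = Q.κ
      rw [RingHom.comp_assoc, h, hκ]
  unfold eps
  by_cases h : φ.comp (show Q.k →+* A.E from θ) = κ
  · rw [if_pos h, if_pos (h1.2 h)]
  · rw [if_neg h, if_neg (fun h2 => h (h1.1 h2))]

end

end Pool.Agent.H395.Tate
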