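import Mathlib
import Pool.Agent.H395.Tate.Count

/-!
# Weil relations over an imaginary quadratic field
-/

set_option autoImplicit false
set_option linter.unusedSectionVars false
set_option linter.unusedVariables false

namespace Pool.Agent.H395.Tate

open NumberField Module Pool.Agent.H204R3.CM Pool.Agent.W547.KB Pool.Agent.W547.LD
  Pool.Agent.W495.TA Pool.Agent.W495.TB Pool.Agent.W495.TC Pool.Agent.TH117.F5
  Pool.Agent.H395.Cyc Pool.Agent.TH117.BL

noncomputable section

variable {p : ℕ} [Fact p.Prime] {ν : PadicAlgCl p ≃+* ℂ}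
  {L : Type} [Field L] [NumberField L] [IsCMField L] [IsGalois ℚ L] {j : L →+* ℂ}
  {Q : ImagQuad} {Z : RedAV p ν}

/-- The embeddings. -/
abbrev EZ (Z : RedAV p ν) : Type := Pool.Agent.TH117.BL.Emb Z

/-- The group generated by the elementary relations. -/
def HH (Z : RedAV p ν) : AddSubgroup (EZ Z → ℤ) :=
  AddSubgroup.closure {d | ∃ n : EZ Z → ℕ, IsRel Z n ∧ IsElementary Z n ∧ ∀ w, d w = n w}

theorem mem_HH {n : EZ Z → ℕ} (h1 : IsRel Z n) (h2 : IsElementary Z n) {d : EZ Z → ℤ}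
    (h : ∀ w, d w = n w) : d ∈ HH Z :=
  AddSubgroup.subset_closure ⟨n, h1, h2, h⟩

/-- The conjugate embedding. -/
def cjE (w : EZ Z) : EZ Z := ⟨w.1, ComplexEmbedding.conjugate w.2⟩

theorem cjE_cjE (w : EZ Z) : cjE (cjE w) = w := by
  rcases w with ⟨i, φ⟩
  unfold cjE
  rw [conj_conj]

open Classical in
/-- The function with value one at `w`. -/
def dl (w : EZ Z) : EZ Z → ℤ := fun v => if v = w then 1 else 0

theorem prod_single (w : EZ Z) (f : EZ Z → ℂ) :
    (open Classical in ∏ v, f v ^ (if v = w then 1 else 0 : ℕ)) = f w := by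
  classical
  rw [Finset.prod_eq_single w (fun v _ hv => by rw [if_neg hv, pow_zero])
    (fun h => absurd (Finset.mem_univ w) h), if_pos rfl, pow_one]

theorem eig_cj (w : EZ Z) : eig Z w * eig Z (cjE w) = (p : ℂ) ^ Z.a := by
  rcases w with ⟨i, φ⟩
  have h := (Z.frob i).weil φ
  show φ (Z.π i) * (ComplexEmbedding.conjugate φ) (Z.π i) = _
  rw [ComplexEmbedding.conjugate_coe_eq, Complex.mul_conj']
  exact_mod_cast h

theorem mem_pair (w : EZ Z) : dl w + dl (cjE w) ∈ HH Z := by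
  classical
  have hsum : ∑ v : EZ Z, ((if v = w then 1 else 0) + (if v = cjE w then 1 else 0) : ℕ) = 2 := by
    rw [Finset.sum_add_distrib, Finset.sum_ite_eq' Finset.univ w, Finset.sum_ite_eq' Finset.univ
      (cjE w), if_pos (Finset.mem_univ _), if_pos (Finset.mem_univ _)]
  refine mem_HH (n := fun v => (if v = w then 1 else 0) + (if v = cjE w then 1 else 0)) ?_
    (Or.inl hsum.le) (fun v => ?_)
  · refine ⟨1, one_pos, ?_⟩
    rw [hsum]
    simp only [pow_add, Finset.prod_mul_distrib]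
    rw [prod_single, prod_single, eig_cj, mul_one, one_mul]
  · simp only [Pi.add_apply, dl]
    push_cast
    rfl

/-- The linear function which vanishes on relations. -/
def lam (j : L →+* ℂ) (Z : RedAV p ν) [Fintype (Wt Z.X L)] : (EZ Z → ℤ) →+ ℤ where
  toFun d := ∑ w : Wt Z.X L, d (toEmb j Z w) * tw p ν j Z.X w 1
  map_zero' := by simp
  map_add' d d' := by
    rw [← Finset.sum_add_distrib]
    refine Finset.sum_congr rfl fun w _ => ?_
    rw [Pi.add_apply]
    ring

theorem lam_zero (hZ : Big Z.X j) [Fintype (Wt Z.X L)] {d : EZ Z → ℤ} (hd : d ∈ HH Z) :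
    lam j Z d = 0 := by
  have h1 : HH Z ≤ (lam j Z).ker := by
    unfold HH
    rw [AddSubgroup.closure_le]
    rintro d ⟨n, hn, -, h⟩
    have h2 := (isRel_iff hZ n).1 hn 1
    show lam j Z d = 0
    have h3 : d = fun w => (n w : ℤ) := funext h
    rw [h3]
    exact h2
  exact h1 hd

open Classical in
/-- The exponents of the embeddings over `k` of the factors in a set. -/
def ind (Q : ImagQuad) (S : Set Z.X.I) (tt : ∀ i, Q.k →+* (Z.X.factor i).E) : EZ Z → ℕ :=
  fun w => if w.1 ∈ S ∧ w.2.comp (tt w.1) = Q.κ then 1 else 0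

theorem sum_ind (hZ : Big Z.X j) (hsplit : ¬ SamePlace p ν Q.κ (ComplexEmbedding.conjugate Q.κ))
    {κ : Q.k →+* L} (hκ : j.comp κ = Q.κ) (S : Set Z.X.I)
    (tt : ∀ i, Q.k →+* (Z.X.factor i).E) [∀ i, Fintype ((Z.X.factor i).E →+* L)]
    (τ : L ≃ₐ[ℚ] L) :
    ∑ w : Wt Z.X L, (ind Q S tt (toEmb j Z w) : ℤ) * tw p ν j Z.X w τ =
      (open Classical in ∑ i, if i ∈ S then
        (Nat.card (Dec p ν j) : ℤ) * (sgn κ τ * defect Q (Z.X.factor i) (tt i)) else 0) := by
  classical
  rw [Fintype.sum_sigma]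
  refine Finset.sum_congr rfl fun i _ => ?_
  have hsplit' : ¬ SamePlace p ν (j.comp κ) (ComplexEmbedding.conjugate (j.comp κ)) := by
    rw [hκ]
    exact hsplit
  by_cases hi : i ∈ S
  · rw [if_pos hi, ← defectL_eq Q (Z.X.factor i) (hZ i) (tt i) hκ]
    have h1 := sum_over Q.deg hsplit' (Z.X.factor i) (tt i) τ
    refine Eq.trans ?_ h1
    refine Finset.sum_congr rfl fun φ _ => ?_
    have h2 : (j.comp φ).comp (tt i) = Q.κ ↔ φ.comp (tt i) = κ := by
      constructor
      · intro h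
        apply cancel_j (j := j)
        rw [hκ]
        exact h
      · intro h
        rw [RingHom.comp_assoc, h, hκ]
    unfold ind toEmb
    by_cases h : φ.comp (tt i) = κ
    · rw [if_pos ⟨hi, h2.2 h⟩, if_pos h]
      push_cast
      rw [one_mul]
    · rw [if_neg (fun h3 => h (h2.1 h3.2)), if_neg h]
      push_cast
      rw [zero_mul]
  · rw [if_neg hi]
    refine Finset.sum_eq_zero fun φ _ => ?_
    unfold ind toEmb
    rw [if_neg (fun h3 => hi h3.1)]
    push_cast
    rw [zero_mul]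

theorem count_ind (S : Set Z.X.I) (tt : ∀ i, Q.k →+* (Z.X.factor i).E) :
    ∑ w : EZ Z, ind Q S tt w =
      (open Classical in ∑ i, if i ∈ S then cnt Q.κ (tt i) else 0) := by
  classical
  rw [Fintype.sum_sigma]
  refine Finset.sum_congr rfl fun i _ => ?_
  by_cases hi : i ∈ S
  · rw [if_pos hi]
    unfold ind cnt
    refine Finset.sum_congr rfl fun φ _ => ?_
    by_cases h : φ.comp (tt i) = Q.κ
    · rw [if_pos ⟨hi, h⟩, if_pos h]
    · rw [if_neg (fun h3 => h h3.2), if_neg h]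
  · rw [if_neg hi]
    refine Finset.sum_eq_zero fun φ _ => ?_
    unfold ind
    rw [if_neg (fun h3 => hi h3.1)]

theorem isRel_ind (hZ : Big Z.X j) (hsplit : ¬ SamePlace p ν Q.κ (ComplexEmbedding.conjugate Q.κ))
    {κ : Q.k →+* L} (hκ : j.comp κ = Q.κ) (S : Set Z.X.I)
    (tt : ∀ i, Q.k →+* (Z.X.factor i).E)
    (h0 : (open Classical in ∑ i, if i ∈ S then defect Q (Z.X.factor i) (tt i) else 0) = 0) :
    IsRel Z (ind Q S tt) := by
  classical
  have : ∀ i, Finite ((Z.X.factor i).E →+* L) := fun i => finite_emb j (Z.X.factor i)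
  have : ∀ i, Fintype ((Z.X.factor i).E →+* L) := fun i => Fintype.ofFinite _
  rw [isRel_iff hZ]
  intro τ
  rw [sum_ind hZ hsplit hκ S tt τ]
  have h1 : ∀ i, (if i ∈ S then
      (Nat.card (Dec p ν j) : ℤ) * (sgn κ τ * defect Q (Z.X.factor i) (tt i)) else 0) =
      (Nat.card (Dec p ν j) : ℤ) * sgn κ τ *
        (if i ∈ S then defect Q (Z.X.factor i) (tt i) else 0) := by
    intro i
    split_ifs <;> ring
  rw [Finset.sum_congr rfl fun i _ => h1 i, ← Finset.mul_sum, h0, mul_zero]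

/-- The indicator function of an elliptic curve is not a relation. -/
theorem lam_ell (hZ : Big Z.X j) (hsplit : ¬ SamePlace p ν Q.κ (ComplexEmbedding.conjugate Q.κ))
    {κ : Q.k →+* L} (hκ : j.comp κ = Q.κ) [∀ i, Fintype ((Z.X.factor i).E →+* L)]
    (tt : ∀ i, Q.k →+* (Z.X.factor i).E) {e₀ : Z.X.I} (he : finrank ℚ (Z.X.factor e₀).E = 2) :
    ∑ w : Wt Z.X L, (ind Q {e₀} tt (toEmb j Z w) : ℤ) * tw p ν j Z.X w 1 ≠ 0 := by
  classical
  rw [sum_ind hZ hsplit hκ {e₀} tt 1]
  simp only [Set.mem_singleton_iff, Finset.sum_ite_eq', Finset.mem_univ, if_true]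
  have h1 := two_cnt Q.deg Q.κ (tt e₀)
  obtain ⟨m, hm⟩ := defect_parity Q (Z.X.factor e₀) (tt e₀)
  have h2 : cnt Q.κ (show Q.k →+* (Z.X.factor e₀).E from tt e₀) = 1 := by
    have h3 : 2 * cnt Q.κ (tt e₀) = 2 := h1.trans he
    have h4 : cnt Q.κ (tt e₀) = 1 := by omega
    exact h4
  rw [h2] at hm
  have hD : (0 : ℤ) < Nat.card (Dec p ν j) := card_pos'
  refine mul_ne_zero hD.ne' (mul_ne_zero (sgn_ne κ 1) ?_)
  rw [hm]
  push_cast
  omega

theorem isRel_nonsplit (hZ : Big Z.X j)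
    (hns : SamePlace p ν Q.κ (ComplexEmbedding.conjugate Q.κ)) {κ : Q.k →+* L}
    (hκ : j.comp κ = Q.κ) (S : Set Z.X.I) (tt : ∀ i, Q.k →+* (Z.X.factor i).E) :
    IsRel Z (ind Q S tt) := by
  classical
  have : ∀ i, Finite ((Z.X.factor i).E →+* L) := fun i => finite_emb j (Z.X.factor i)
  have : ∀ i, Fintype ((Z.X.factor i).E →+* L) := fun i => Fintype.ofFinite _
  rw [isRel_iff hZ]
  intro τ
  rw [Fintype.sum_sigma]
  refine Finset.sum_eq_zero fun i _ => ?_
  have hns' : SamePlace p ν (j.comp κ) (ComplexEmbedding.conjugate (j.comp κ)) := by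
    rw [hκ]
    exact hns
  by_cases hi : i ∈ S
  · have h1 := sum_over_nonsplit Q.deg hns' (Z.X.factor i) (tt i) τ
    refine Eq.trans ?_ h1
    refine Finset.sum_congr rfl fun φ _ => ?_
    have h2 : (j.comp φ).comp (tt i) = Q.κ ↔ φ.comp (tt i) = κ := by
      constructor
      · intro h
        apply cancel_j (j := j)
        rw [hκ]
        exact h
      · intro h
        rw [RingHom.comp_assoc, h, hκ]
    unfold ind toEmb
    by_cases h : φ.comp (tt i) = κ
    · rw [if_pos ⟨hi, h2.2 h⟩, if_pos h]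
      push_cast
      rw [one_mul]
    · rw [if_neg (fun h3 => h (h2.1 h3.2)), if_neg h]
      push_cast
      rw [zero_mul]
  · refine Finset.sum_eq_zero fun φ _ => ?_
    unfold ind toEmb
    rw [if_neg (fun h3 => hi h3.1)]
    push_cast
    rw [zero_mul]

end

end Pool.Agent.H395.Tate
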