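import Mathlib
import Pool.Agent.H395.Tate.Ind
import Pool.Agent.H395.Cyc.Main

/-!
# Elementary relations for abelian varieties of dimension at most six with multiplication by one
imaginary quadratic field
-/

set_option autoImplicit false
set_option linter.unusedSectionVars false
set_option linter.unusedVariables false

namespace Pool.Agent.H395.Tate

open NumberField Module Pool.Agent.H204R3.CM Pool.Agent.W547.KB Pool.Agent.W547.LD
  Pool.Agent.W495.TA Pool.Agent.W495.TB Pool.Agent.W495.TC Pool.Agent.TH117.F5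
  Pool.Agent.H395.Cyc Pool.Agent.TH117.BL

noncomputable section

variable {p : ℕ} [Fact p.Prime] {ν : PadicAlgCl p ≃+* ℂ}
  {L : Type} [Field L] [NumberField L] [IsCMField L] [IsGalois ℚ L] {j : L →+* ℂ}
  {Q : ImagQuad} {Z : RedAV p ν} {θ : ∀ i, FHom Q.k (Z.X.factor i).E}

/-- Relations with integral exponents. -/
theorem isRelation_of (e : EZ Z → ℤ) (r : ℤ)
    (h : ∏ w : EZ Z, eig Z w ^ e w = (((p ^ Z.a : ℕ) : ℂ)) ^ r) :
    IsRelation (frobNum Z) (fun x => e ⟨x.1, x.2⟩) := by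
  refine ⟨r, ?_⟩
  rw [← h]
  rfl

/-- The relations are constant over `k`. -/
def Shape (Q : ImagQuad) (Z : RedAV p ν) (θ : ∀ i, FHom Q.k (Z.X.factor i).E) : Prop :=
  QuadShape Q Set.univ (frobNum Z) (fun i _ => θ i)

/-- The shape of the relations. -/
theorem shape_const (h : Shape Q Z θ) {e : EZ Z → ℤ} {r : ℤ}
    (he : ∏ w : EZ Z, eig Z w ^ e w = (((p ^ Z.a : ℕ) : ℂ)) ^ r) {w w' : EZ Z} (hw1 : w.1 = w'.1)
    (hw : w.2.comp (θ w.1 : Q.k →+* (Z.X.factor w.1).E) = Q.κ)
    (hw' : w'.2.comp (θ w'.1 : Q.k →+* (Z.X.factor w'.1).E) = Q.κ) :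
    e w - e (cjE w) = e w' - e (cjE w') := by
  rcases w with ⟨i, φ⟩
  rcases w' with ⟨i', ψ⟩
  have h1 : i = i' := hw1
  subst h1
  exact (h _ (isRelation_of e r he)).2 i (Set.mem_univ i) φ ψ hw hw'

theorem cnt_le_two {k : Type} [Field k] {E : Type} [Field E] [NumberField E] (κ : k →+* ℂ)
    (θ : k →+* E) (a b : E →+* ℂ) (h : ∀ φ : E →+* ℂ, φ.comp θ = κ → φ = a ∨ φ = b) :
    cnt κ θ ≤ 2 := by
  classical
  unfold cnt
  rw [← Finset.sum_filter, Finset.sum_const, smul_eq_mul, mul_one]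
  have h1 : Finset.univ.filter (fun φ : E →+* ℂ => φ.comp θ = κ) ⊆ {a, b} := by
    intro φ hφ
    rw [Finset.mem_filter] at hφ
    rcases h φ hφ.2 with h2 | h2
    · rw [h2]
      exact Finset.mem_insert_self _ _
    · rw [h2]
      exact Finset.mem_insert_of_mem (Finset.mem_singleton_self _)
  exact (Finset.card_le_card h1).trans Finset.card_le_two

theorem elem_ind (h : Shape Q Z θ) (hZ : Big Z.X j) {κ : Q.k →+* L} (hκ : j.comp κ = Q.κ)
    {e₀ : Z.X.I} {i : Z.X.I} {S : Set Z.X.I}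
    {tt : ∀ i, Q.k →+* (Z.X.factor i).E} (hi : tt i = θ i)
    (hS : ∀ i' ∈ S, i' = i ∨ (i' = e₀ ∧ finrank ℚ (Z.X.factor e₀).E = 2 ∧
      ¬ SamePlace p ν Q.κ (ComplexEmbedding.conjugate Q.κ)))
    (h6 : ∑ w, ind Q S tt w ≤ 5 ∨ (∑ w, ind Q S tt w = 6 ∧
      ¬ SamePlace p ν Q.κ (ComplexEmbedding.conjugate Q.κ)))
    (h3 : 3 ≤ ∑ w, ind Q S tt w → 3 ≤ cnt Q.κ (show Q.k →+* (Z.X.factor i).E from θ i)) :
    IsElementary Z (ind Q S tt) := by
  classical
  by_cases h2 : ∑ w, ind Q S tt w ≤ 2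
  · exact Or.inl h2
  have hcnt := h3 (by omega)
  refine Or.inr (Or.inr ?_)
  let W : WeilDatum Z := { K := Q.k, quadratic := Q.deg, κ := Q.κ, S := S, ι := fun i' _ => tt i' }
  have hpos : ∀ w, W.IsPos w ↔ (w.1 ∈ S ∧ w.2.comp (tt w.1) = Q.κ) := fun w =>
    ⟨fun ⟨a, b⟩ => ⟨a, b⟩, fun ⟨a, b⟩ => ⟨a, b⟩⟩
  refine ⟨W, fun w => ?_, ?_, ?_⟩
  · unfold ind
    by_cases hw : w.1 ∈ S ∧ w.2.comp (tt w.1) = Q.κ
    · rw [if_pos hw, if_pos ((hpos w).2 hw)]
    · rw [if_neg hw, if_neg (fun h5 => hw ((hpos w).1 h5))]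
  · intro w w' hw hw' hww n hn heq
    rw [hpos] at hw hw'
    have hmul : ∏ v : EZ Z, eig Z v ^ ((n : ℤ) * (dl w v + dl w' v)) =
        (eig Z w * eig Z w') ^ n := by
      have h7 : ∀ v : EZ Z, eig Z v ^ ((n : ℤ) * (dl w v + dl w' v)) =
          (eig Z v ^ (if v = w then 1 else 0 : ℕ) * eig Z v ^ (if v = w' then 1 else 0 : ℕ)) ^ n := by
        intro v
        unfold dl
        rw [← pow_add, ← pow_mul, ← zpow_natCast]
        congr 1
        push_cast
        ring
      rw [Finset.prod_congr rfl fun v _ => h7 v, Finset.prod_pow, Finset.prod_mul_distrib,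
        prod_single, prod_single]
    by_cases hwe : w.1 = i
    · -- the factor `i`
      have hw1 : w.2.comp (show Q.k →+* (Z.X.factor w.1).E from θ w.1) = Q.κ := by
        have h8 : ∀ (w : EZ Z), w.1 = i → w.2.comp (tt w.1) = Q.κ →
            w.2.comp (show Q.k →+* (Z.X.factor w.1).E from θ w.1) = Q.κ := by
          rintro ⟨i', φ⟩ h9 h10
          have h11 : i' = i := h9
          subst h11
          rw [hi] at h10
          exact h10
        exact h8 w hwe hw.2
      have hw1' : w'.2.comp (show Q.k →+* (Z.X.factor w'.1).E from θ w'.1) = Q.κ := by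
        have h8 : ∀ (w : EZ Z), w.1 = i → w.2.comp (tt w.1) = Q.κ →
            w.2.comp (show Q.k →+* (Z.X.factor w.1).E from θ w.1) = Q.κ := by
          rintro ⟨i', φ⟩ h9 h10
          have h11 : i' = i := h9
          subst h11
          rw [hi] at h10
          exact h10
        exact h8 w' (hww.symm.trans hwe) hw'.2
      have hrel : ∏ v : EZ Z, eig Z v ^ ((n : ℤ) * (dl w v + dl w' v)) =
          (((p ^ Z.a : ℕ) : ℂ)) ^ ((n : ℕ) : ℤ) := by
        rw [hmul, heq, zpow_natCast]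
        push_cast
        rfl
      have hlt : cnt Q.κ (show Q.k →+* (Z.X.factor w.1).E from θ w.1) ≤ 2 := by
        have hcj : ∀ v v' : EZ Z,
            v.2.comp (show Q.k →+* (Z.X.factor v.1).E from θ v.1) = Q.κ →
            v'.2.comp (show Q.k →+* (Z.X.factor v'.1).E from θ v'.1) = Q.κ → dl v (cjE v') = 0 := by
          intro v v' hv hv'
          unfold dl
          rw [if_neg]
          intro h9
          rw [← h9] at hv
          exact ((not_over_iff Q.deg Q.κ _ (ComplexEmbedding.conjugate v'.2)).2 (by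
            rw [conj_conj]
            exact hv')) hv
        obtain ⟨ψ, hψ⟩ : ∃ ψ : (Z.X.factor w.1).E →+* ℂ, w' = ⟨w.1, ψ⟩ := by
          rcases w with ⟨a, b⟩
          rcases w' with ⟨a', b'⟩
          have h9 : a = a' := hww
          subst h9
          exact ⟨b', rfl⟩
        refine cnt_le_two Q.κ _ w.2 ψ fun φ hφ => ?_
        have h10 := shape_const h hrel (w := ⟨w.1, φ⟩) (w' := w) rfl hφ hw1
        rw [hcj w ⟨w.1, φ⟩ hw1 hφ, hcj w' ⟨w.1, φ⟩ hw1' hφ, hcj w w hw1 hw1,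
          hcj w' w hw1' hw1] at h10
        have h11 : dl w w = 1 := by
          unfold dl
          rw [if_pos rfl]
        have h12 : 0 ≤ dl w' w := by
          unfold dl
          split_ifs <;> norm_num
        rw [h11] at h10
        by_contra hcon
        push Not at hcon
        have h13 : dl w (⟨w.1, φ⟩ : EZ Z) = 0 := by
          unfold dl
          rw [if_neg]
          intro h14
          apply hcon.1
          have h15 := (Sigma.mk.inj_iff.1 (h14.trans (Sigma.eta w).symm)).2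
          exact eq_of_heq h15
        have h14 : dl w' (⟨w.1, φ⟩ : EZ Z) = 0 := by
          unfold dl
          rw [if_neg]
          intro h14
          apply hcon.2
          rw [hψ] at h14
          exact eq_of_heq (Sigma.mk.inj_iff.1 h14).2
        rw [h13, h14] at h10
        have hn' : (0 : ℤ) < n := by exact_mod_cast hn
        nlinarith
      rw [← hwe] at hcnt
      omega
    · -- the elliptic curve
      obtain ⟨hwe0, he, hsplit⟩ := (hS w.1 hw.1).resolve_left hwe
      have hw'w : w' = w := by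
        rcases w with ⟨a, b⟩
        rcases w' with ⟨a', b'⟩
        have h9 : a = a' := hww
        subst h9
        have h10 : a = e₀ := hwe0
        subst h10
        have h11 : b' = b := eq_of_two Q.deg he (tt a) (hw'.2.trans hw.2.symm)
        rw [h11]
      rw [hw'w] at heq
      have hind : ∀ v, ind Q {e₀} tt v = if v = w then 1 else 0 := by
        intro v
        unfold ind
        by_cases hv : v = w
        · rw [if_pos hv, hv, if_pos ⟨hwe0, hw.2⟩]
        · rw [if_neg hv, if_neg]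
          rintro ⟨h9, h10⟩
          apply hv
          rcases w with ⟨a, b⟩
          rcases v with ⟨a', b'⟩
          have h11 : a = e₀ := hwe0
          subst h11
          have h12 : a' = a := h9
          subst h12
          have h13 : b' = b := eq_of_two Q.deg he (tt a') (h10.trans hw.2.symm)
          rw [h13]
      have hrel : IsRel Z (ind Q {e₀} tt) := by
        refine ⟨n, hn, ?_⟩
        have h9 : ∏ v, eig Z v ^ ind Q {e₀} tt v = eig Z w := by
          simp only [hind]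
          exact prod_single w (eig Z)
        have h10 : ∑ v, ind Q {e₀} tt v = 1 := by
          simp only [hind]
          rw [Finset.sum_ite_eq' Finset.univ w, if_pos (Finset.mem_univ _)]
        rw [h9, h10, mul_one, pow_mul, pow_two]
        exact heq
      have : ∀ i, Finite ((Z.X.factor i).E →+* L) := fun i => finite_emb j (Z.X.factor i)
      have : ∀ i, Fintype ((Z.X.factor i).E →+* L) := fun i => Fintype.ofFinite _
      exact lam_ell hZ hsplit hκ tt he ((isRel_iff hZ _).1 hrel 1)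
  · rcases h6 with h9 | h9
    · have h10 : 3 ≤ ∑ w, ind Q S tt w := by omega
      exact Or.inl ⟨h10, h9⟩
    · exact Or.inr ⟨h9.1, h9.2⟩

open Classical in
/-- The indicator function of the embeddings over `k` of one factor. -/
def Wf (Q : ImagQuad) (tt : ∀ i, Q.k →+* (Z.X.factor i).E) (i : Z.X.I) : EZ Z → ℤ :=
  fun w => if w.1 = i ∧ w.2.comp (tt w.1) = Q.κ then 1 else 0

theorem sum_pairS {i e₀ : Z.X.I} (hne : i ≠ e₀) {M : Type} [AddCommMonoid M] (f : Z.X.I → M)
    {S : Set Z.X.I} (hS : S = {i, e₀}) :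
    (open Classical in ∑ i', if i' ∈ S then f i' else 0) = f i + f e₀ := by
  classical
  have h1 : ∀ i', (if i' ∈ S then f i' else 0) =
      (if i' = i then f i' else 0) + (if i' = e₀ then f i' else 0) := by
    intro i'
    by_cases h2 : i' = i
    · subst h2
      have h5 : i' ∈ S := by
        rw [hS]
        exact Or.inl rfl
      rw [if_pos h5, if_pos rfl, if_neg hne, add_zero]
    · by_cases h3 : i' = e₀
      · subst h3
        have h5 : i' ∈ S := by
          rw [hS]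
          exact Or.inr rfl
        rw [if_pos h5, if_neg h2, if_pos rfl, zero_add]
      · have h5 : i' ∉ S := by
          rw [hS]
          exact fun h4 => h4.elim h2 h3
        rw [if_neg h5, if_neg h2, if_neg h3, add_zero]
  rw [Finset.sum_congr rfl fun i' _ => h1 i', Finset.sum_add_distrib, Finset.sum_ite_eq',
    Finset.sum_ite_eq', if_pos (Finset.mem_univ _), if_pos (Finset.mem_univ _)]

theorem sum_singleS {i : Z.X.I} {M : Type} [AddCommMonoid M] (f : Z.X.I → M)
    {S : Set Z.X.I} (hS : S = {i}) :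
    (open Classical in ∑ i', if i' ∈ S then f i' else 0) = f i := by
  classical
  subst hS
  rw [Finset.sum_eq_single i]
  · rw [if_pos (Set.mem_singleton i)]
  · intro i' _ h
    exact if_neg (fun h2 => h h2)
  · intro h
    exact absurd (Finset.mem_univ i) h

/-- The Weil relation of a factor and the elliptic curve, for one choice of the embeddings. -/
theorem mem_weil_pair (h : Shape Q Z θ)
    (hsplit : ¬ SamePlace p ν Q.κ (ComplexEmbedding.conjugate Q.κ)) (hZ : Big Z.X j)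
    {κ : Q.k →+* L} (hκ : j.comp κ = Q.κ) {e₀ : Z.X.I}
    (he : finrank ℚ (Z.X.factor e₀).E = 2) {i : Z.X.I}
    (hi12 : finrank ℚ (Z.X.factor i).E ≤ 12)
    (hie : i ≠ e₀) (tt : ∀ i, Q.k →+* (Z.X.factor i).E) (hi : tt i = θ i)
    (hopp : defect Q (Z.X.factor i) (tt i) + defect Q (Z.X.factor e₀) (tt e₀) = 0)
    (hodd : defect Q (Z.X.factor i) (tt i) = 1 ∨ defect Q (Z.X.factor i) (tt i) = -1) :
    Wf Q tt i + Wf Q tt e₀ ∈ HH Z := by
  classical
  have hi2 : 2 * cnt Q.κ (tt i) = finrank ℚ (Z.X.factor i).E := two_cnt Q.deg Q.κ _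
  have he2 : 2 * cnt Q.κ (tt e₀) = finrank ℚ (Z.X.factor e₀).E := two_cnt Q.deg Q.κ _
  obtain ⟨m, hm⟩ : ∃ m : ℤ, defect Q (Z.X.factor i) (tt i) = cnt Q.κ (tt i) - 2 * m :=
    defect_parity Q (Z.X.factor i) (tt i)
  have hci : cnt Q.κ (tt i) ≤ 6 := by omega
  have hci5 : (cnt Q.κ (tt i) : ℤ) ≤ 5 := by
    have h5 : (cnt Q.κ (tt i) : ℤ) ≤ 6 := by exact_mod_cast hci
    omega
  have hci' : cnt Q.κ (tt i) ≤ 5 := by exact_mod_cast hci5
  have hce : cnt Q.κ (tt e₀) = 1 := by omega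
  have hsum : ∑ w, ind Q {i, e₀} tt w = cnt Q.κ (tt i) + cnt Q.κ (tt e₀) := by
    rw [count_ind]
    exact sum_pairS hie (fun i' => cnt Q.κ (tt i')) rfl
  refine mem_HH (n := ind Q {i, e₀} tt) (isRel_ind hZ hsplit hκ _ _ ?_)
    (elem_ind h hZ hκ hi (fun i' hi' => hi'.imp id (fun h7 => ⟨h7, he, hsplit⟩)) ?_ ?_)
    (fun w => ?_)
  · exact (sum_pairS hie (fun i' => defect Q (Z.X.factor i') (tt i')) rfl).trans hopp
  · rw [hsum]
    by_cases h7 : cnt Q.κ (tt i) + cnt Q.κ (tt e₀) ≤ 5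
    · exact Or.inl h7
    · exact Or.inr ⟨by omega, hsplit⟩
  · intro h5
    rw [hsum] at h5
    have h7 : cnt Q.κ (tt i) ≠ 2 := by
      intro h8
      rw [h8] at hm
      push_cast at hm
      omega
    have h10 : 3 ≤ cnt Q.κ (tt i) := by omega
    rw [hi] at h10
    exact h10
  · rw [Pi.add_apply]
    unfold Wf ind
    by_cases hw : w.2.comp (tt w.1) = Q.κ
    · by_cases h1 : w.1 = i
      · rw [if_pos ⟨h1, hw⟩, if_neg (fun h9 => hie (h1.symm.trans h9.1)),
          if_pos ⟨Or.inl h1, hw⟩]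
        norm_num
      · by_cases h2 : w.1 = e₀
        · rw [if_neg (fun h9 => h1 h9.1), if_pos ⟨h2, hw⟩, if_pos ⟨Or.inr h2, hw⟩]
          norm_num
        · rw [if_neg (fun h9 => h1 h9.1), if_neg (fun h9 => h2 h9.1),
            if_neg (fun h9 => h9.1.elim h1 h2)]
          norm_num
    · rw [if_neg (fun h9 => hw h9.2), if_neg (fun h9 => hw h9.2), if_neg (fun h9 => hw h9.2)]
      norm_num

theorem mem_weil_single (h : Shape Q Z θ) (hZ : Big Z.X j) {κ : Q.k →+* L}
    (hκ : j.comp κ = Q.κ) {i : Z.X.I} (tt : ∀ i, Q.k →+* (Z.X.factor i).E) (hi : tt i = θ i)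
    (hrel : IsRel Z (ind Q {i} tt))
    (hdim : finrank ℚ (Z.X.factor i).E ≤ 10 ∨ (finrank ℚ (Z.X.factor i).E ≤ 12 ∧
      ¬ SamePlace p ν Q.κ (ComplexEmbedding.conjugate Q.κ))) : Wf Q tt i ∈ HH Z := by
  classical
  have hi2 : 2 * cnt Q.κ (tt i) = finrank ℚ (Z.X.factor i).E := two_cnt Q.deg Q.κ _
  have hsum : ∑ w, ind Q {i} tt w = cnt Q.κ (tt i) := by
    rw [count_ind]
    exact sum_singleS (fun i' => cnt Q.κ (tt i')) rfl
  refine mem_HH (n := ind Q {i} tt) hrel
    (elem_ind (e₀ := i) h hZ hκ hi (fun i' hi' => Or.inl hi') ?_ ?_) (fun w => ?_)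
  · rw [hsum]
    rcases hdim with h7 | h7
    · exact Or.inl (by omega)
    · by_cases h8 : cnt Q.κ (tt i) ≤ 5
      · exact Or.inl h8
      · exact Or.inr ⟨by omega, h7.2⟩
  · intro h5
    rw [hsum, hi] at h5
    exact h5
  · unfold Wf ind
    by_cases hw : w.1 = i ∧ w.2.comp (tt w.1) = Q.κ
    · rw [if_pos hw, if_pos ⟨hw.1, hw.2⟩]
      norm_num
    · rw [if_neg hw, if_neg (fun h9 => hw ⟨h9.1, h9.2⟩)]
      norm_num

/-- The two embeddings of an elliptic curve. -/
theorem mem_ell {e₀ : Z.X.I} (he : finrank ℚ (Z.X.factor e₀).E = 2)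
    (tt tt' : ∀ i, Q.k →+* (Z.X.factor i).E)
    (hcc : ∀ φ : (Z.X.factor e₀).E →+* ℂ, φ.comp (tt' e₀) = Q.κ ↔
      (ComplexEmbedding.conjugate φ).comp (tt e₀) = Q.κ) :
    Wf Q tt e₀ + Wf Q tt' e₀ ∈ HH Z := by
  classical
  have h1 := two_cnt Q.deg Q.κ (tt e₀)
  have h2 : cnt Q.κ (tt e₀) = 1 := by omega
  obtain ⟨φ, hφ⟩ : ∃ φ : (Z.X.factor e₀).E →+* ℂ, φ.comp (tt e₀) = Q.κ := by
    by_contra hcon
    push Not at hcon
    unfold cnt at h2
    rw [Finset.sum_eq_zero fun φ _ => if_neg (hcon φ)] at h2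
    exact absurd h2 (by norm_num)
  have h3 : Wf Q tt e₀ + Wf Q tt' e₀ = dl ⟨e₀, φ⟩ + dl (cjE ⟨e₀, φ⟩) := by
    funext w
    rw [Pi.add_apply, Pi.add_apply]
    have h4 : Wf Q tt e₀ w = dl ⟨e₀, φ⟩ w := by
      unfold Wf dl
      by_cases hw : w = ⟨e₀, φ⟩
      · subst hw
        rw [if_pos ⟨rfl, hφ⟩, if_pos rfl]
      · rw [if_neg hw, if_neg]
        rintro ⟨h5, h6⟩
        apply hw
        rcases w with ⟨a, b⟩
        have h7 : a = e₀ := h5
        subst h7
        have h8 : b = φ := eq_of_two Q.deg he (tt a) (h6.trans hφ.symm)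
        rw [h8]
    have h5 : Wf Q tt' e₀ w = dl (cjE ⟨e₀, φ⟩) w := by
      unfold Wf dl cjE
      by_cases hw : w = ⟨e₀, ComplexEmbedding.conjugate φ⟩
      · subst hw
        rw [if_pos ⟨rfl, (hcc _).2 (by rw [conj_conj]; exact hφ)⟩, if_pos rfl]
      · rw [if_neg hw, if_neg]
        rintro ⟨h5, h6⟩
        apply hw
        rcases w with ⟨a, b⟩
        have h7 : a = e₀ := h5
        subst h7
        have h8 : ComplexEmbedding.conjugate b = φ :=
          eq_of_two Q.deg he (tt a) (((hcc b).1 h6).trans hφ.symm)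
        rw [← h8, conj_conj]
    rw [h4, h5]
  rw [h3]
  exact mem_pair _

/-- The conjugate embedding of `k`. -/
def ccQ {E : Type} [Field E] (Q : ImagQuad) (θ : Q.k →+* E) : Q.k →+* E :=
  θ.comp (IsCMField.complexConj Q.k : Q.k →+* Q.k)

theorem over_ccQ {E : Type} [Field E] (θ : Q.k →+* E) (φ : E →+* ℂ) :
    φ.comp (ccQ Q θ) = Q.κ ↔ (ComplexEmbedding.conjugate φ).comp θ = Q.κ := by
  have h1 : φ.comp (ccQ Q θ) = (ComplexEmbedding.conjugate φ).comp θ := by
    ext x
    show (φ.comp θ) (IsCMField.complexConj Q.k x) = _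
    rw [IsCMField.complexEmbedding_complexConj]
    rfl
  rw [h1]

theorem defect_ccQ (A : CMPair) (θ : Q.k →+* A.E) : defect Q A (ccQ Q θ) = - defect Q A θ := by
  classical
  unfold defect
  rw [← Finset.sum_neg_distrib]
  have h9 := Equiv.sum_comp (conjPerm A.E)
    (fun φ : A.E →+* ℂ => if Q.Over (show FHom Q.k A.E from ccQ Q θ) φ then
      (if φ ∈ A.Φ then (1 : ℤ) else -1) else 0)
  refine h9.symm.trans (Finset.sum_congr rfl fun φ _ => ?_)
  have h2 : conjPerm A.E φ = ComplexEmbedding.conjugate φ := rfl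
  rw [h2]
  have h3 : Q.Over (show FHom Q.k A.E from ccQ Q θ) (ComplexEmbedding.conjugate φ) ↔
      Q.Over (show FHom Q.k A.E from θ) φ := by
    have h4 := over_ccQ (Q := Q) θ (ComplexEmbedding.conjugate φ)
    rw [conj_conj] at h4
    exact h4
  have h5 := A.isCMType φ
  by_cases h : Q.Over (show FHom Q.k A.E from θ) φ
  · rw [if_pos (h3.2 h), if_pos h]
    by_cases h6 : φ ∈ A.Φ
    · rw [if_pos h6, if_neg (h5.1 h6)]
    · rw [if_neg h6, if_pos (by
        by_contra h7
        exact h6 (h5.2 h7)), neg_neg]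
  · rw [if_neg (fun h7 => h (h3.1 h7)), if_neg h, neg_zero]

/-- The Weil relation of a factor and the elliptic curve. -/
theorem mem_weil (h : Shape Q Z θ)
    (hsplit : ¬ SamePlace p ν Q.κ (ComplexEmbedding.conjugate Q.κ)) (hZ : Big Z.X j)
    {κ : Q.k →+* L} (hκ : j.comp κ = Q.κ)
    {e₀ : Z.X.I} (he : finrank ℚ (Z.X.factor e₀).E = 2)
    (hdim : ∀ i, finrank ℚ (Z.X.factor i).E ≤ 12)
    (tt : ∀ i, Q.k →+* (Z.X.factor i).E) (htt : ∀ i, tt i = θ i)
    (hsig : ∀ i, |defect Q (Z.X.factor i) (tt i)| ≤ 1) (i : Z.X.I) :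
    ∃ t : ℤ, Wf Q tt i - t • Wf Q tt e₀ ∈ HH Z := by
  classical
  by_cases hie : i = e₀
  · refine ⟨1, ?_⟩
    rw [hie, one_smul, sub_self]
    exact (HH Z).zero_mem
  have hsi := hsig i
  have hse := hsig e₀
  rw [abs_le] at hsi hse
  by_cases h0 : defect Q (Z.X.factor i) (tt i) = 0
  · refine ⟨0, ?_⟩
    rw [zero_smul, sub_zero]
    exact mem_weil_single h hZ hκ tt (htt i) (isRel_ind hZ hsplit hκ _ _
      ((sum_singleS (fun i' => defect Q (Z.X.factor i') (tt i')) rfl).trans h0))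
      (Or.inr ⟨hdim i, hsplit⟩)
  have he2 : 2 * cnt Q.κ (tt e₀) = finrank ℚ (Z.X.factor e₀).E := two_cnt Q.deg Q.κ _
  obtain ⟨m', hm'⟩ : ∃ m : ℤ, defect Q (Z.X.factor e₀) (tt e₀) = cnt Q.κ (tt e₀) - 2 * m :=
    defect_parity Q (Z.X.factor e₀) (tt e₀)
  have hce : cnt Q.κ (tt e₀) = 1 := by omega
  rw [hce] at hm'
  push_cast at hm'
  have hdi : defect Q (Z.X.factor i) (tt i) = 1 ∨ defect Q (Z.X.factor i) (tt i) = -1 := by omega
  by_cases hopp : defect Q (Z.X.factor i) (tt i) + defect Q (Z.X.factor e₀) (tt e₀) = 0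
  · refine ⟨-1, ?_⟩
    have h1 := mem_weil_pair h hsplit hZ hκ he (hdim i) hie tt (htt i) hopp hdi
    rw [neg_one_smul, sub_neg_eq_add]
    exact h1
  · refine ⟨1, ?_⟩
    let tt' : ∀ i, Q.k →+* (Z.X.factor i).E := Function.update tt e₀ (ccQ Q (tt e₀))
    have hi' : tt' i = tt i := Function.update_of_ne hie _ _
    have he' : tt' e₀ = ccQ Q (tt e₀) := Function.update_self _ _ _
    have h1 : Wf Q tt' i + Wf Q tt' e₀ ∈ HH Z := by
      refine mem_weil_pair h hsplit hZ hκ he (hdim i) hie tt' (hi'.trans (htt i)) ?_ ?_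
      · rw [hi', he', defect_ccQ]
        omega
      · rw [hi']
        exact hdi
    have h2 : Wf Q tt e₀ + Wf Q tt' e₀ ∈ HH Z := by
      refine mem_ell he tt tt' fun φ => ?_
      rw [he']
      exact over_ccQ _ _
    have h3 : Wf Q tt' i = Wf Q tt i := by
      funext w
      unfold Wf
      by_cases hw : w.1 = i
      · have h4 : tt' w.1 = tt w.1 := by
          rw [hw]
          exact hi'
        rw [h4]
      · rw [if_neg (fun h5 => hw h5.1), if_neg (fun h5 => hw h5.1)]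
    have h4 : Wf Q tt i - (1 : ℤ) • Wf Q tt e₀ =
        (Wf Q tt' i + Wf Q tt' e₀) - (Wf Q tt e₀ + Wf Q tt' e₀) := by
      rw [h3, one_smul]
      abel
    rw [h4]
    exact (HH Z).sub_mem h1 h2

/-- Each complex embedding is over `k` or conjugate to one over `k`. -/
theorem over_or (tt : ∀ i, Q.k →+* (Z.X.factor i).E) (w : EZ Z) :
    ¬ w.2.comp (tt w.1) = Q.κ ↔ (cjE w).2.comp (tt (cjE w).1) = Q.κ :=
  not_over_iff Q.deg Q.κ (tt w.1) w.2

/-- The decomposition of a relation. -/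
theorem decompose (h : Shape Q Z θ) (tt : ∀ i, Q.k →+* (Z.X.factor i).E) (htt : ∀ i, tt i = θ i)
    (W₀ : EZ Z → ℤ) (t : Z.X.I → ℤ) (ht : ∀ i, Wf Q tt i - t i • W₀ ∈ HH Z) {e : EZ Z → ℕ}
    (hrel : IsRel Z e) : ∃ T : ℤ, ∃ A ∈ HH Z, (fun w => (e w : ℤ)) = A + T • W₀ := by
  classical
  obtain ⟨s, hs, hes⟩ := hrel
  -- the exponents are constant over `k`
  have hprod : ∏ w : EZ Z, eig Z w ^ ((2 * s : ℤ) * (e w : ℤ)) =
      (((p ^ Z.a : ℕ) : ℂ)) ^ (((s * ∑ w, e w : ℕ)) : ℤ) := by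
    have h7 : ∀ w : EZ Z, eig Z w ^ ((2 * s : ℤ) * (e w : ℤ)) = (eig Z w ^ e w) ^ (2 * s) := by
      intro w
      rw [← pow_mul, ← zpow_natCast]
      congr 1
      push_cast
      ring
    rw [Finset.prod_congr rfl fun w _ => h7 w, Finset.prod_pow, hes, zpow_natCast]
    push_cast
    rfl
  have hconst : ∀ w w' : EZ Z, w.1 = w'.1 → w.2.comp (tt w.1) = Q.κ →
      w'.2.comp (tt w'.1) = Q.κ → (e w : ℤ) - e (cjE w) = e w' - e (cjE w') := by
    intro w w' h1 h2 h3
    rw [htt] at h2 h3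
    have h4 := shape_const h hprod h1 h2 h3
    have h5 : (2 * s : ℤ) * (((e w : ℤ) - e (cjE w)) - (e w' - e (cjE w'))) = 0 := by linarith
    have h6 : (2 * s : ℤ) ≠ 0 := by positivity
    have h7 := (mul_eq_zero.1 h5).resolve_left h6
    linarith
  -- the constants
  have hex : ∀ i, ∃ x : ℤ, ∀ w : EZ Z, w.1 = i → w.2.comp (tt w.1) = Q.κ →
      (e w : ℤ) - e (cjE w) = x := by
    intro i
    by_cases hi : ∃ w : EZ Z, w.1 = i ∧ w.2.comp (tt w.1) = Q.κ
    · obtain ⟨w, h1, h2⟩ := hi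
      exact ⟨(e w : ℤ) - e (cjE w), fun w' h3 h4 => hconst w' w (h3.trans h1.symm) h4 h2⟩
    · exact ⟨0, fun w h1 h2 => absurd ⟨w, h1, h2⟩ hi⟩
  choose x hx using hex
  refine ⟨∑ i, x i * t i, (∑ i, x i • (Wf Q tt i - t i • W₀)) +
      (∑ w : EZ Z, (if w.2.comp (tt w.1) = Q.κ then (e (cjE w) : ℤ) else 0) •
        (dl w + dl (cjE w))), (HH Z).add_mem ((HH Z).sum_mem fun i _ => (HH Z).zsmul_mem (ht i) _)
    ((HH Z).sum_mem fun w _ => (HH Z).zsmul_mem (mem_pair w) _), ?_⟩
  funext v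
  have h1 : (∑ i, x i • (Wf Q tt i - t i • W₀)) v =
      (∑ i, x i * Wf Q tt i v) - (∑ i, x i * t i) * W₀ v := by
    rw [Finset.sum_apply]
    simp only [Pi.smul_apply, Pi.sub_apply, smul_eq_mul, mul_sub, Finset.sum_sub_distrib]
    congr 1
    rw [Finset.sum_mul]
    refine Finset.sum_congr rfl fun i _ => ?_
    ring
  have h2 : (∑ i, x i * Wf Q tt i v) = if v.2.comp (tt v.1) = Q.κ then x v.1 else 0 := by
    unfold Wf
    by_cases hv : v.2.comp (tt v.1) = Q.κ
    · rw [if_pos hv, Finset.sum_eq_single v.1]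
      · rw [if_pos ⟨rfl, hv⟩, mul_one]
      · intro i _ hi
        rw [if_neg (fun h3 => hi h3.1.symm), mul_zero]
      · intro h3
        exact absurd (Finset.mem_univ _) h3
    · rw [if_neg hv]
      refine Finset.sum_eq_zero fun i _ => ?_
      rw [if_neg (fun h3 => hv h3.2), mul_zero]
  have h3 : (∑ w : EZ Z, (if w.2.comp (tt w.1) = Q.κ then (e (cjE w) : ℤ) else 0) •
      (dl w + dl (cjE w))) v = if v.2.comp (tt v.1) = Q.κ then (e (cjE v) : ℤ) else e v := by
    rw [Finset.sum_apply]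
    have h4 : ∀ w : EZ Z, ((if w.2.comp (tt w.1) = Q.κ then (e (cjE w) : ℤ) else 0) •
        (dl w + dl (cjE w))) v =
        (if w = v then (if w.2.comp (tt w.1) = Q.κ then (e (cjE w) : ℤ) else 0) else 0) +
        (if w = cjE v then (if w.2.comp (tt w.1) = Q.κ then (e (cjE w) : ℤ) else 0) else 0) := by
      intro w
      have h5 : (v = cjE w) ↔ (w = cjE v) := by
        constructor
        · intro h6
          rw [h6, cjE_cjE]
        · intro h6
          rw [h6, cjE_cjE]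
      simp only [Pi.smul_apply, Pi.add_apply, dl, smul_eq_mul, h5, eq_comm (a := v) (b := w)]
      split_ifs <;> ring
    rw [Finset.sum_congr rfl fun w _ => h4 w, Finset.sum_add_distrib, Finset.sum_ite_eq',
      Finset.sum_ite_eq', if_pos (Finset.mem_univ _), if_pos (Finset.mem_univ _), cjE_cjE]
    by_cases hv : v.2.comp (tt v.1) = Q.κ
    · have h6 : ¬ (cjE v).2.comp (tt (cjE v).1) = Q.κ := fun h7 => (over_or tt v).2 h7 hv
      rw [if_pos hv, if_neg h6, if_pos hv, add_zero]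
    · have h6 := (over_or tt v).1 hv
      rw [if_neg hv, if_pos h6, if_neg hv, zero_add]
  rw [Pi.add_apply, Pi.add_apply, h1, h2, h3]
  have h4 : ((∑ i, x i * t i) • W₀) v = (∑ i, x i * t i) * W₀ v := rfl
  rw [h4]
  by_cases hv : v.2.comp (tt v.1) = Q.κ
  · rw [if_pos hv, if_pos hv, ← hx v.1 v rfl hv]
    ring
  · rw [if_neg hv, if_neg hv]
    ring

/-- There is an embedding over `k`. -/
theorem exists_over (hZ : Big Z.X j) (tt : ∀ i, Q.k →+* (Z.X.factor i).E) (i : Z.X.I) :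
    ∃ κ : Q.k →+* L, j.comp κ = Q.κ := by
  have h1 := two_cnt Q.deg Q.κ (tt i)
  have h2 : 0 < finrank ℚ (Z.X.factor i).E := finrank_pos
  obtain ⟨φ, hφ⟩ : ∃ φ : (Z.X.factor i).E →+* ℂ, φ.comp (tt i) = Q.κ := by
    by_contra hcon
    push Not at hcon
    have h3 : cnt Q.κ (tt i) = 0 := by
      unfold cnt
      exact Finset.sum_eq_zero fun φ _ => if_neg (hcon φ)
    omega
  obtain ⟨φ', hφ'⟩ := hZ i φ
  refine ⟨φ'.comp (tt i), ?_⟩
  rw [← RingHom.comp_assoc, hφ', hφ]

/-- The relations are generated by elementary relations. -/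
theorem hasElementaryRelations (h : SmallOver Q Z θ) : HasElementaryRelations Z := by
  classical
  by_cases hne : Nonempty Z.X.I
  · obtain ⟨L, _, _, _, _, j, hj⟩ := exists_cm Z.X
    have hZ : Big Z.X j := fun i ψ => hj i ψ
    let tt : ∀ i, Q.k →+* (Z.X.factor i).E := fun i => θ i
    have htt : ∀ i, tt i = θ i := fun _ => rfl
    obtain ⟨i₀⟩ := hne
    obtain ⟨κ, hκ⟩ := exists_over (Q := Q) hZ tt i₀
    intro e hrel
    show (fun w => (e w : ℤ)) ∈ HH Z
    rcases h.small with ⟨hsplit, hsm, e₀, he⟩ | ⟨hns, hdim⟩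
    · have hsig : ∀ i, |defect Q (Z.X.factor i) (tt i)| ≤ 1 := fun i => (hsm i).2
      choose t ht using mem_weil h.shape hsplit hZ hκ he (fun i => (hsm i).1) tt htt hsig
      obtain ⟨T, A, hA, hdec⟩ := decompose h.shape tt htt (Wf Q tt e₀) t ht hrel
      have : ∀ i, Finite ((Z.X.factor i).E →+* L) := fun i => finite_emb j (Z.X.factor i)
      have : ∀ i, Fintype ((Z.X.factor i).E →+* L) := fun i => Fintype.ofFinite _
      have hT : T = 0 := by
        have h1 : lam j Z (fun w => (e w : ℤ)) = 0 := (isRel_iff hZ e).1 hrel 1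
        rw [hdec, map_add, lam_zero hZ hA, zero_add, map_zsmul, smul_eq_mul] at h1
        refine (mul_eq_zero.1 h1).resolve_right ?_
        have h2 := lam_ell hZ hsplit hκ tt he
        have h3 : lam j Z (Wf Q tt e₀) =
            ∑ w : Wt Z.X L, (ind Q {e₀} tt (toEmb j Z w) : ℤ) * tw p ν j Z.X w 1 := by
          refine Finset.sum_congr rfl fun w _ => ?_
          congr 1
          unfold Wf ind
          by_cases hw : (toEmb j Z w).1 = e₀ ∧
              (toEmb j Z w).2.comp (tt (toEmb j Z w).1) = Q.κ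
          · rw [if_pos hw, if_pos ⟨hw.1, hw.2⟩]
            norm_num
          · rw [if_neg hw, if_neg (fun h9 => hw ⟨h9.1, h9.2⟩)]
            norm_num
        rw [h3]
        exact h2
      rw [hdec, hT, zero_smul, add_zero]
      exact hA
    · have ht : ∀ i, Wf Q tt i - (0 : ℤ) • (0 : EZ Z → ℤ) ∈ HH Z := by
        intro i
        rw [zero_smul, sub_zero]
        exact mem_weil_single h.shape hZ hκ tt (htt i) (isRel_nonsplit hZ hns hκ _ _)
          (Or.inl (hdim i))
      obtain ⟨T, A, hA, hdec⟩ := decompose h.shape tt htt 0 (fun _ => 0) ht hrel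
      rw [hdec, smul_zero, add_zero]
      exact hA
  · intro e hrel
    have h1 : (fun w : EZ Z => (e w : ℤ)) = 0 := by
      funext w
      exact absurd ⟨w.1⟩ hne
    rw [h1]
    exact AddSubgroup.zero_mem _

/-- The Tate conjecture. -/
theorem tate_of_small (h : SmallOver Q Z θ) : TateFor Z :=
  fun Ω _ _ _ Y hY s m hs f hf => elementary Z (hasElementaryRelations h) Ω Y hY s m hs f hf

end

end Pool.Agent.H395.Tate
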