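import Mathlib
import Pool.Agent.H395.Tate.Main

/-!
# Fields of prime degree or with a doubly transitive group over the imaginary quadratic field
-/

set_option autoImplicit false
set_option linter.unusedSectionVars false
set_option linter.unusedVariables false

namespace Pool.Agent.H395.Tate

open NumberField Module Pool.Agent.W495.TA Pool.Agent.W547.KB Pool.Agent.H395.Cyc
  Pool.Agent.TH117.BL

noncomputable section

variable {p : ℕ} [Fact p.Prime] {ν : PadicAlgCl p ≃+* ℂ} {Q : ImagQuad} {Z : RedAV p ν}
  {θ : ∀ i, FHom Q.k (Z.X.factor i).E}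

theorem types_of_fields (h : FieldTypes Q Z θ) :
    QuadTypes Q Set.univ (frobNum Z) (fun i _ => θ i) where
  powers := h.powers
  local_type i hi := absurd (Set.mem_univ i) hi
  over_k i _ := Or.inl (criteria Q (Z.X.factor i).E (θ i) (h.over_k i))
  alone i hi φ ψ hφ hψ := by
    obtain ⟨σ, h1, h2, h3⟩ := h.disjoint i φ ψ hφ hψ
    exact ⟨σ, h1, h2, fun j _ hj => h3 j hj⟩

theorem shape_of_fields (h : FieldTypes Q Z θ) :
    QuadShape Q Set.univ (frobNum Z) (fun i _ => θ i) :=
  shape_of (types_of_fields h)

end

end Pool.Agent.H395.Tate
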